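import Pool.Agent.helper96.PP2.SpecA

set_option autoImplicit false
set_option linter.style.haveILetI false

namespace Pool.Agent.PP2

open Topology Matrix

theorem ABH_vec (p : ℕ) (hp : p.Prime) (Q : Type) [AddCommGroup Q] [Finite Q]
    (hz : ∀ q : Q, p • q = 0) :
    ∃ (r : ℕ) (x : Fin r → Q →+ ZMod p) (e : Fin r → Q), Nat.card Q = p ^ r ∧
      (∀ i j, x i (e j) = if i = j then 1 else 0) := by
  classical
  haveI := Fact.mk hp
  obtain ⟨hM⟩ : Nonempty (Module (ZMod p) Q) := ⟨AddCommGroup.zmodModule hz⟩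
  have hF : Module.Finite (ZMod p) Q := Module.Finite.of_finite
  have hFr : Module.Free (ZMod p) Q := Module.Free.of_divisionRing _ _
  let b := Module.finBasis (ZMod p) Q
  refine ⟨Module.finrank (ZMod p) Q, fun i => (b.coord i).toAddMonoidHom, b, ?_, ?_⟩
  · have h1 : Nat.card Q = Nat.card (ZMod p) ^ Module.finrank (ZMod p) Q :=
      Module.natCard_eq_pow_finrank
    rwa [Nat.card_zmod] at h1
  · intro i j
    change b.repr (b j) i = _
    rw [b.repr_self, Finsupp.single_apply]
    by_cases h : i = j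
    · rw [if_pos h, if_pos h.symm]
    · rw [if_neg h, if_neg (fun h' => h h'.symm)]

/-- Dual bases of an elementary abelian quotient. -/
theorem ABH_dual {G : Type} [Group G] (p : ℕ) (hp : p.Prime) (N : Subgroup G) (hN : N.Normal)
    (hfin : Finite (G ⧸ N)) (hcomm : ∀ x y : G, x * y * x⁻¹ * y⁻¹ ∈ N)
    (hpow : ∀ x : G, x ^ p ∈ N) :
    ∃ (r : ℕ) (x : Fin r → G → ZMod p) (e : Fin r → G), N.index = p ^ r ∧
      (∀ i a b, x i (a * b) = x i a + x i b) ∧ (∀ i, ∀ n ∈ N, x i n = 0) ∧
      (∀ i j, x i (e j) = if i = j then 1 else 0) := by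
  classical
  haveI := hN
  letI : CommGroup (G ⧸ N) :=
    { (inferInstance : Group (G ⧸ N)) with
      mul_comm := by
        intro a b
        induction a using QuotientGroup.induction_on with
        | H x =>
        induction b using QuotientGroup.induction_on with
        | H y =>
        have h : ((y * x : G) : G ⧸ N) = ((x * y : G) : G ⧸ N) := by
          rw [QuotientGroup.eq]
          have h1 := hcomm x⁻¹ y⁻¹
          have h2 : (y * x)⁻¹ * (x * y) = x⁻¹ * y⁻¹ * x⁻¹⁻¹ * y⁻¹⁻¹ := by group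
          rw [h2]
          exact h1
        exact h.symm }
  have hz : ∀ q : Additive (G ⧸ N), p • q = 0 := by
    intro q
    have h : ∀ q : G ⧸ N, q ^ p = 1 := by
      intro q
      induction q using QuotientGroup.induction_on with
      | H x =>
      have h1 : ((x ^ p : G) : G ⧸ N) = 1 := (QuotientGroup.eq_one_iff _).2 (hpow x)
      exact h1
    exact congrArg Additive.ofMul (h (Additive.toMul q))
  haveI : Finite (Additive (G ⧸ N)) := hfin
  obtain ⟨r, x, e', hc, hd⟩ := ABH_vec p hp (Additive (G ⧸ N)) hz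
  have hsurj : ∀ j, ∃ g : G, Additive.ofMul (g : G ⧸ N) = e' j := by
    intro j
    obtain ⟨g, hg⟩ := QuotientGroup.mk_surjective (Additive.toMul (e' j))
    exact ⟨g, by rw [hg]; rfl⟩
  choose e he using hsurj
  refine ⟨r, fun i g => x i (Additive.ofMul (g : G ⧸ N)), e, hc, ?_, ?_, ?_⟩
  · intro i a c
    exact (x i).map_add (Additive.ofMul (a : G ⧸ N)) (Additive.ofMul (c : G ⧸ N))
  · intro i n hn
    have h1 : (n : G ⧸ N) = 1 := (QuotientGroup.eq_one_iff _).2 hn
    have h2 : Additive.ofMul (n : G ⧸ N) = 0 := by rw [h1]; rfl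
    exact (congrArg (x i) h2).trans (map_zero _)
  · intro i j
    exact (congrArg (x i) (he j)).trans (hd i j)

theorem ABH_lc {G X : Type} [Group G] [TopologicalSpace G] [IsTopologicalGroup G]
    (N : Subgroup G) (hN : IsOpen (N : Set G)) (f : G → X) (hf : ∀ g, ∀ n ∈ N, f (g * n) = f g) :
    IsLocallyConstant f := by
  rw [IsLocallyConstant.iff_exists_open]
  intro g
  refine ⟨(fun n => g * n) '' (N : Set G), ?_, ⟨1, N.one_mem, mul_one g⟩, ?_⟩
  · exact (Homeomorph.mulLeft g).isOpenMap _ hN
  · rintro _ ⟨n, hn, rfl⟩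
    exact hf g n hn

theorem ABH_row : ABH_stmt := by
  intro p A _ _ _ _ hp hcomm hH B hB hpow
  haveI := Fact.mk hp
  have hnor : B.Normal := ⟨fun n hn g => by
    rw [hcomm g n, mul_assoc, mul_inv_cancel, mul_one]; exact hn⟩
  have hfin : Finite (A ⧸ B) := B.quotient_finite_of_isOpen hB
  obtain ⟨r, x, e, hidx, hadd, hker, hdual⟩ := ABH_dual p hp B hnor hfin
    (fun x y => by
      rw [hcomm x y, mul_assoc y x, mul_inv_cancel, mul_one, mul_inv_cancel]
      exact B.one_mem) hpow
  rw [hidx]
  by_contra hcon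
  have hr : 3 ≤ r := by
    by_contra h
    exact hcon (Nat.pow_le_pow_right hp.pos (by omega))
  have hlc : ∀ i, IsLocallyConstant (x i) := fun i => ABH_lc B hB (x i) fun g n hn => by
    rw [hadd, hker i n hn, add_zero]
  set i1 : Fin r := ⟨0, by omega⟩ with hi1
  set i2 : Fin r := ⟨1, by omega⟩ with hi2
  set i3 : Fin r := ⟨2, by omega⟩ with hi3
  have h12 : i1 ≠ i2 := by simp [hi1, hi2]
  have h13 : i1 ≠ i3 := by simp [hi1, hi3]
  have h23 : i2 ≠ i3 := by simp [hi2, hi3]
  let f : A → A → A → Fp p := fun a b c => ((x i1 a * x i2 b * x i3 c : ZMod p) : ZMod p)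
  have hLC : LC3 f := by
    have h1 : IsLocallyConstant (fun y : A × A × A => (x i1 y.1, x i2 y.2.1, x i3 y.2.2)) := by
      have ha := (hlc i1).comp_continuous (continuous_fst : Continuous fun y : A × A × A => y.1)
      have hb := (hlc i2).comp_continuous
        (continuous_fst.comp continuous_snd : Continuous fun y : A × A × A => y.2.1)
      have hc := (hlc i3).comp_continuous
        (continuous_snd.comp continuous_snd : Continuous fun y : A × A × A => y.2.2)
      exact ha.prodMk (hb.prodMk hc)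
    exact h1.comp (fun z : ZMod p × ZMod p × ZMod p => (z.1 * z.2.1 * z.2.2 : ZMod p))
  have hd3 : ∀ a b c d : A, d3 f a b c d = 0 := by
    intro a b c d
    change (x i1 b * x i2 c * x i3 d - x i1 (a * b) * x i2 c * x i3 d
      + x i1 a * x i2 (b * c) * x i3 d - x i1 a * x i2 b * x i3 (c * d)
      + x i1 a * x i2 b * x i3 c : ZMod p) = 0
    rw [hadd, hadd, hadd]
    ring
  have hsm : Smooth A (Fp p) := fun a => by
    have : {g : A | g • a = a} = Set.univ := Set.eq_univ_of_forall fun g => rfl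
    rw [this]
    exact isOpen_univ
  haveI : Finite (Fp p) := inferInstanceAs (Finite (ZMod p))
  obtain ⟨h, -, hh⟩ := hH (Fp p) inferInstance
    ⟨1, by rw [pow_one]; exact Nat.card_zmod p⟩ hsm f hLC hd3
  have key : ∀ a b c : A, f a b c + f b c a + f c a b - f b a c - f a c b - f c b a = 0 := by
    intro a b c
    rw [hh a b c, hh b c a, hh c a b, hh b a c, hh a c b, hh c b a]
    change (h b c - h (a * b) c + h a (b * c) - h a b) + (h c a - h (b * c) a + h b (c * a) - h b c)
      + (h a b - h (c * a) b + h c (a * b) - h c a) - (h a c - h (b * a) c + h b (a * c) - h b a)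
      - (h c b - h (a * c) b + h a (c * b) - h a c) - (h b a - h (c * b) a + h c (b * a) - h c b) = 0
    rw [hcomm b a, hcomm c a, hcomm c b]
    abel
  have h1 := key (e i1) (e i2) (e i3)
  have hval : ∀ a b c : Fin r, f (e a) (e b) (e c) =
      (((if i1 = a then 1 else 0) * (if i2 = b then 1 else 0) * (if i3 = c then 1 else 0) : ZMod p)
        : ZMod p) := by
    intro a b c
    change x i1 (e a) * x i2 (e b) * x i3 (e c) = _
    rw [hdual, hdual, hdual]
  rw [hval, hval, hval, hval, hval, hval] at h1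
  rw [if_pos rfl, if_pos rfl, if_pos rfl, if_neg h12, if_neg h13, if_neg h12.symm, if_neg h23,
    if_neg h13.symm, if_neg h23.symm] at h1
  have h2 : (1 * 1 * 1 + 0 * 0 * 0 + 0 * 0 * 0 - 0 * 0 * 1 - 1 * 0 * 0 - 0 * 1 * 0 : ZMod p) = 0 :=
    h1
  simp at h2

end Pool.Agent.PP2
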