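import Pool.Agent.helper96.PP2.SpecA

set_option autoImplicit false
set_option linter.style.haveILetI false

namespace Pool.Agent.PP2

open Topology Matrix

theorem ABI_open (hABH : ABH_stmt) (p : ℕ) (A : Type) [Group A] [TopologicalSpace A]
    [IsTopologicalGroup A] [CompactSpace A] (hp : p.Prime) (hcomm : ∀ x y : A, x * y = y * x)
    (hH : H3Zero p A) (n : ℕ) :
    ∀ B : Subgroup A, IsOpen (B : Set A) → (∀ a : A, a ^ (p ^ n) ∈ B) →
      B.index ≤ p ^ (2 * n) := by
  have hnor : ∀ B : Subgroup A, B.Normal := fun B => ⟨fun n hn g => by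
    rw [hcomm g n, mul_assoc, mul_inv_cancel, mul_one]; exact hn⟩
  induction n with
  | zero =>
    intro B hB hB1
    have h1 : B = ⊤ := by
      rw [eq_top_iff]
      intro a _
      have := hB1 a
      rwa [pow_zero, pow_one] at this
    rw [h1, Subgroup.index_top, mul_zero, pow_zero]
  | succ n ih =>
    intro B hB hB1
    let φ : A →* A := MonoidHom.mk' (fun a => a ^ p) fun a b => (Commute.mul_pow (hcomm a b) p)
    have hφ : Continuous φ := continuous_pow p
    have h1 : (B.comap φ).index ≤ p ^ (2 * n) := by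
      apply ih
      · exact hB.preimage hφ
      · intro a
        change (a ^ (p ^ n)) ^ p ∈ B
        rw [← pow_mul, ← pow_succ]
        exact hB1 a
    have h2 : (φ.range ⊔ B).index ≤ p ^ 2 := by
      apply hABH p A hp hcomm hH
      · exact Subgroup.isOpen_mono le_sup_right hB
      · intro a
        exact (le_sup_left : φ.range ≤ φ.range ⊔ B) ⟨a, rfl⟩
    haveI := hnor B
    have h3 : B.relIndex (φ.range ⊔ B) * (φ.range ⊔ B).index = B.index :=
      Subgroup.relIndex_mul_index le_sup_right
    rw [Subgroup.relIndex_sup_right, ← Subgroup.index_comap] at h3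
    rw [← h3]
    calc (B.comap φ).index * (φ.range ⊔ B).index ≤ p ^ (2 * n) * p ^ 2 := Nat.mul_le_mul h1 h2
      _ = p ^ (2 * (n + 1)) := by rw [← pow_add]; ring_nf

theorem ABI_row (hABH : ABH_stmt) : ABI_stmt := by
  intro p A _ _ _ _ _ _ hp hcomm hH n B hB hB1
  have hO := ABI_open hABH p A hp hcomm hH n
  -- the set of open subgroups above B
  let S : Set (Subgroup A) := {N | IsOpen (N : Set A) ∧ B ≤ N}
  have hfi : ∀ N ∈ S, N.index ≠ 0 := by
    intro N hN
    haveI : Finite (A ⧸ N) := N.quotient_finite_of_isOpen hN.1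
    exact Subgroup.index_ne_zero_of_finite
  have hle : ∀ N ∈ S, N.index ≤ p ^ (2 * n) := fun N hN => hO N hN.1 fun a => hN.2 (hB1 a)
  have hfinite : ((fun N : Subgroup A => N.index) '' S).Finite :=
    (Set.finite_Iic (p ^ (2 * n))).subset (by rintro _ ⟨N, hN, rfl⟩; exact hle N hN)
  have htop : (⊤ : Subgroup A) ∈ S := ⟨isOpen_univ, le_top⟩
  obtain ⟨_, ⟨M, hM, rfl⟩, hmax⟩ := hfinite.exists_maximal
    (⟨_, ⟨⊤, htop, rfl⟩⟩ : ((fun N : Subgroup A => N.index) '' S).Nonempty)
  have hmax' : ∀ N ∈ S, N.index ≤ M.index := by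
    intro N hN
    by_contra hcon
    push Not at hcon
    have := hmax ⟨N, hN, rfl⟩ hcon.le
    exact absurd hcon (not_lt.2 this)
  have hMle : ∀ N ∈ S, M ≤ N := by
    intro N hN
    have h1 : M ⊓ N ∈ S := ⟨hM.1.inter hN.1, le_inf hM.2 hN.2⟩
    have h2 := hmax' _ h1
    have h3 : (M ⊓ N).relIndex M * M.index = (M ⊓ N).index :=
      Subgroup.relIndex_mul_index inf_le_left
    have h4 : (M ⊓ N).relIndex M ≤ 1 := by
      by_contra hcon
      push Not at hcon
      have h5 : M.index < (M ⊓ N).relIndex M * M.index := by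
        have h6 : 0 < M.index := Nat.pos_of_ne_zero (hfi M hM)
        nlinarith
      omega
    have h5 : (M ⊓ N).relIndex M ≠ 0 := by
      intro h
      rw [h, zero_mul] at h3
      exact hfi _ h1 h3.symm
    have h6 : (M ⊓ N).relIndex M = 1 := by omega
    rw [Subgroup.relIndex_eq_one] at h6
    exact h6.trans inf_le_right
  have hBM : B = M := by
    apply le_antisymm hM.2
    have h1 := ProfiniteGrp.closedSubgroup_eq_sInf_open (⟨B, hB⟩ : ClosedSubgroup A)
    have h2 : B = sInf S := h1
    rw [h2]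
    exact le_sInf hMle
  rw [hBM]
  exact ⟨hfi M hM, hle M hM⟩

end Pool.Agent.PP2
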