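import Pool.Agent.helper96.PP2.SpecA

set_option autoImplicit false
set_option linter.style.haveILetI false

namespace Pool.Agent.PP2

open Topology Matrix

theorem H2L_vec (p : ℕ) (hp : p.Prime) (Q : Type) [AddCommGroup Q] [Finite Q]
    (hz : ∀ q : Q, p • q = 0) :
    ∃ (r : ℕ) (x : Fin r → Q →+ ZMod p) (e : Fin r → Q), Nat.card Q = p ^ r ∧
      (∀ i j, x i (e j) = if i = j then 1 else 0) := by
  classical
  haveI := Fact.mk hp
  obtain ⟨hM⟩ : Nonempty (Module (ZMod p) Q) := ⟨AddCommGroup.zmodModule hz⟩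
  have hF : Module.Finite (ZMod p) Q := Module.Finite.of_finite
  have hFr : Module.Free (ZMod p) Q := Module.Free.of_divisionRing _ _
  let b := Module.finBasis (ZMod p) Q
  refine ⟨Module.finrank (ZMod p) Q, fun i => (b.coord i).toAddMonoidHom, b, ?_, ?_⟩
  · have h1 : Nat.card Q = Nat.card (ZMod p) ^ Module.finrank (ZMod p) Q :=
      Module.natCard_eq_pow_finrank
    rwa [Nat.card_zmod] at h1
  · intro i j
    change b.repr (b j) i = _
    rw [b.repr_self, Finsupp.single_apply]
    by_cases h : i = j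
    · rw [if_pos h, if_pos h.symm]
    · rw [if_neg h, if_neg (fun h' => h h'.symm)]

/-- Dual bases of an elementary abelian quotient. -/
theorem H2L_dual {G : Type} [Group G] (p : ℕ) (hp : p.Prime) (N : Subgroup G) (hN : N.Normal)
    (hfin : Finite (G ⧸ N)) (hcomm : ∀ x y : G, x * y * x⁻¹ * y⁻¹ ∈ N)
    (hpow : ∀ x : G, x ^ p ∈ N) :
    ∃ (r : ℕ) (x : Fin r → G → ZMod p) (e : Fin r → G), N.index = p ^ r ∧
      (∀ i a b, x i (a * b) = x i a + x i b) ∧ (∀ i, ∀ n ∈ N, x i n = 0) ∧
      (∀ i j, x i (e j) = if i = j then 1 else 0) := by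
  classical
  haveI := hN
  letI : CommGroup (G ⧸ N) :=
    { (inferInstance : Group (G ⧸ N)) with
      mul_comm := by
        intro a b
        induction a using QuotientGroup.induction_on with
        | H x =>
        induction b using QuotientGroup.induction_on with
        | H y =>
        have h : ((y * x : G) : G ⧸ N) = ((x * y : G) : G ⧸ N) := by
          rw [QuotientGroup.eq]
          have h1 := hcomm x⁻¹ y⁻¹
          have h2 : (y * x)⁻¹ * (x * y) = x⁻¹ * y⁻¹ * x⁻¹⁻¹ * y⁻¹⁻¹ := by group
          rw [h2]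
          exact h1
        exact h.symm }
  have hz : ∀ q : Additive (G ⧸ N), p • q = 0 := by
    intro q
    have h : ∀ q : G ⧸ N, q ^ p = 1 := by
      intro q
      induction q using QuotientGroup.induction_on with
      | H x =>
      have h1 : ((x ^ p : G) : G ⧸ N) = 1 := (QuotientGroup.eq_one_iff _).2 (hpow x)
      exact h1
    exact congrArg Additive.ofMul (h (Additive.toMul q))
  haveI : Finite (Additive (G ⧸ N)) := hfin
  obtain ⟨r, x, e', hc, hd⟩ := H2L_vec p hp (Additive (G ⧸ N)) hz
  have hsurj : ∀ j, ∃ g : G, Additive.ofMul (g : G ⧸ N) = e' j := by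
    intro j
    obtain ⟨g, hg⟩ := QuotientGroup.mk_surjective (Additive.toMul (e' j))
    exact ⟨g, by rw [hg]; rfl⟩
  choose e he using hsurj
  refine ⟨r, fun i g => x i (Additive.ofMul (g : G ⧸ N)), e, hc, ?_, ?_, ?_⟩
  · intro i a c
    exact (x i).map_add (Additive.ofMul (a : G ⧸ N)) (Additive.ofMul (c : G ⧸ N))
  · intro i n hn
    have h1 : (n : G ⧸ N) = 1 := (QuotientGroup.eq_one_iff _).2 hn
    have h2 : Additive.ofMul (n : G ⧸ N) = 0 := by rw [h1]; rfl
    exact (congrArg (x i) h2).trans (map_zero _)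
  · intro i j
    exact (congrArg (x i) (he j)).trans (hd i j)

theorem H2L_lc {G X : Type} [Group G] [TopologicalSpace G] [IsTopologicalGroup G]
    (N : Subgroup G) (hN : IsOpen (N : Set G)) (f : G → X) (hf : ∀ g, ∀ n ∈ N, f (g * n) = f g) :
    IsLocallyConstant f := by
  rw [IsLocallyConstant.iff_exists_open]
  intro g
  refine ⟨(fun n => g * n) '' (N : Set G), ?_, ⟨1, N.one_mem, mul_one g⟩, ?_⟩
  · exact (Homeomorph.mulLeft g).isOpenMap _ hN
  · rintro _ ⟨n, hn, rfl⟩
    exact hf g n hn

theorem H2L_row : H2L_stmt := by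
  intro p U _ _ _ _ F d hp hU hidx hd hne
  classical
  haveI := Fact.mk hp
  haveI hn1 : (F 1).Normal := hU.nor 1
  have hle2 : F 2 ≤ F 1 := hU.anti (by norm_num)
  have htop : ∀ x : U, x ∈ F 0 := fun x => by rw [hU.top]; trivial
  have hfin : Finite (U ⧸ F 1) := (F 1).quotient_finite_of_isOpen (hU.op 1)
  obtain ⟨r, x, e, hr, hadd, hker, hdual⟩ := H2L_dual p hp (F 1) hn1 hfin
    (fun x y => hle2 (hU.com 0 x (htop x) y (htop y))) (fun x => hU.pow 0 x (htop x))
  have hrd : r = d := by
    rw [hidx] at hr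
    exact (Nat.pow_right_injective hp.two_le hr).symm
  subst hrd
  obtain ⟨m, rfl⟩ : ∃ m, r = m + 3 := ⟨r - 3, by omega⟩
  have hlc : ∀ i, IsLocallyConstant (x i) := fun i => H2L_lc (F 1) (hU.op 1) (x i) fun g n hn => by
    rw [hadd, hker i n hn, add_zero]
  let z : (Fin (m + 3) → ZMod p) → U → U → ZMod p := fun c u w =>
    ∑ i, c i * (x i u * x (i + 1) w)
  let β : (Fin (m + 3) → ZMod p) → U → U → Fp p := fun c u w => z c u w
  have hβl : ∀ c, LC2 (β c) := by
    intro c
    have h1 : IsLocallyConstant (fun y : U × U =>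
        ((fun i => x i y.1 : Fin (m + 3) → ZMod p), (fun i => x i y.2 : Fin (m + 3) → ZMod p))) := by
      have ha : IsLocallyConstant (fun u : U => (fun i => x i u : Fin (m + 3) → ZMod p)) :=
        H2L_lc (F 1) (hU.op 1) _ fun g n hn => by
          funext i
          rw [hadd, hker i n hn, add_zero]
      exact (ha.comp_continuous (continuous_fst : Continuous fun y : U × U => y.1)).prodMk
        (ha.comp_continuous (continuous_snd : Continuous fun y : U × U => y.2))
    exact h1.comp (fun z : (Fin (m + 3) → ZMod p) × (Fin (m + 3) → ZMod p) =>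
      (∑ i, c i * (z.1 i * z.2 (i + 1)) : ZMod p))
  have hβadd1 : ∀ c u u' w, z c (u * u') w = z c u w + z c u' w := by
    intro c u u' w
    change ∑ i, c i * (x i (u * u') * x (i + 1) w) =
      ∑ i, c i * (x i u * x (i + 1) w) + ∑ i, c i * (x i u' * x (i + 1) w)
    rw [← Finset.sum_add_distrib]
    apply Finset.sum_congr rfl
    intro i _
    rw [hadd]
    ring
  have hβadd2 : ∀ c u w w', z c u (w * w') = z c u w + z c u w' := by
    intro c u w w'
    change ∑ i, c i * (x i u * x (i + 1) (w * w')) =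
      ∑ i, c i * (x i u * x (i + 1) w) + ∑ i, c i * (x i u * x (i + 1) w')
    rw [← Finset.sum_add_distrib]
    apply Finset.sum_congr rfl
    intro i _
    rw [hadd]
    ring
  have hβc : ∀ c a b g, d2 (β c) a b g = 0 := by
    intro c a b g
    change z c b g - z c (a * b) g + z c a (b * g) - z c a b = 0
    rw [hβadd1, hβadd2]
    ring
  have hβker1 : ∀ c, ∀ u ∈ F 1, ∀ w, z c u w = 0 := by
    intro c u hu w
    change ∑ i, c i * (x i u * x (i + 1) w) = 0
    apply Finset.sum_eq_zero
    intro i _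
    rw [hker i u hu]
    ring
  have hβker2 : ∀ c u, ∀ w ∈ F 1, z c u w = 0 := by
    intro c u w hw
    change ∑ i, c i * (x i u * x (i + 1) w) = 0
    apply Finset.sum_eq_zero
    intro i _
    rw [hker (i + 1) w hw]
    ring
  have hβsub : ∀ c c' u w, z (c - c') u w = z c u w - z c' u w := by
    intro c c' u w
    change ∑ i, (c - c') i * (x i u * x (i + 1) w) =
      ∑ i, c i * (x i u * x (i + 1) w) - ∑ i, c' i * (x i u * x (i + 1) w)
    rw [← Finset.sum_sub_distrib]
    apply Finset.sum_congr rfl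
    intro i _
    rw [Pi.sub_apply]
    ring
  have key : ∀ c, β c ∈ B2 U (Fp p) → c = 0 := by
    rintro c ⟨b0, -, hb⟩
    let b : U → ZMod p := fun u => b0 u
    have hb' : ∀ u w, z c u w = b w - b (u * w) + b u := fun u w => hb u w
    have hb1 : ∀ u, ∀ w ∈ F 1, b (u * w) = b u + b w := by
      intro u w hw
      have h := hb' u w
      rw [hβker2 c u w hw] at h
      linear_combination h
    have hbp : ∀ y ∈ F 1, ∀ k : ℕ, b (y ^ (k + 1)) = ((k + 1 : ℕ) : ZMod p) * b y := by
      intro y hy k
      induction k with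
      | zero => simp
      | succ k ih =>
        rw [pow_succ, hb1 _ y hy, ih]
        push_cast
        ring
    have hb2 : ∀ v ∈ F 2, b v = 0 := by
      intro v hv
      obtain ⟨y, hy, hyv⟩ := hU.root 1 v hv
      have h := hbp y hy (p - 1)
      have hp1 : p - 1 + 1 = p := Nat.sub_add_cancel hp.one_le
      rw [hp1, hyv, CharP.cast_eq_zero, zero_mul] at h
      exact h
    have hsymm : ∀ u w, z c u w = z c w u := by
      intro u w
      have hk : u⁻¹ * w⁻¹ * u⁻¹⁻¹ * w⁻¹⁻¹ ∈ F 2 := hU.com 0 u⁻¹ (htop _) w⁻¹ (htop _)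
      have hk1 : w * u * (u⁻¹ * w⁻¹ * u⁻¹⁻¹ * w⁻¹⁻¹) = u * w := by group
      have h1 := hb1 (w * u) _ (hle2 hk)
      rw [hk1, hb2 _ hk, add_zero] at h1
      rw [hb', hb', h1]
      ring
    funext i
    have h := hsymm (e i) (e (i + 1))
    have hL : z c (e i) (e (i + 1)) = c i := by
      change ∑ j, c j * (x j (e i) * x (j + 1) (e (i + 1))) = c i
      rw [Finset.sum_eq_single i]
      · rw [hdual, hdual, if_pos rfl, if_pos rfl]
        ring
      · intro j _ hj
        rw [hdual, if_neg hj]
        ring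
      · intro h
        exact absurd (Finset.mem_univ i) h
    have hR : z c (e (i + 1)) (e i) = 0 := by
      change ∑ j, c j * (x j (e (i + 1)) * x (j + 1) (e i)) = 0
      apply Finset.sum_eq_zero
      intro j _
      rw [hdual, hdual]
      by_cases h1 : j = i + 1
      · have h2 : j + 1 ≠ i := by
          intro h3
          rw [h1, add_assoc] at h3
          have h4 : (1 + 1 : Fin (m + 3)) = 0 := by
            have := add_eq_left.1 h3
            exact this
          have h5 := congrArg Fin.val h4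
          rw [Fin.val_add] at h5
          have h6 : ((1 : Fin (m + 3)) : ℕ) = 1 := Fin.val_one _
          rw [h6] at h5
          have h7 : (1 + 1) % (m + 3) = 2 := Nat.mod_eq_of_lt (by omega)
          rw [h7] at h5
          simp at h5
        rw [if_neg h2]
        ring
      · rw [if_neg h1]
        ring
    rw [hL, hR] at h
    exact h
  let Φ : (Fin (m + 3) → ZMod p) → (Z2 U (Fp p)) ⧸ ((B2 U (Fp p)).addSubgroupOf (Z2 U (Fp p))) :=
    fun c => QuotientAddGroup.mk ⟨β c, hβl c, hβc c⟩
  have hΦ : Function.Injective Φ := by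
    intro c c' h
    have h1 := QuotientAddGroup.eq.1 h
    rw [AddSubgroup.mem_addSubgroupOf] at h1
    have h2 : β (c' - c) ∈ B2 U (Fp p) := by
      have h3 : β (c' - c) = -β c + β c' := by
        funext u w
        have h4 := hβsub c' c u w
        change z (c' - c) u w = -(z c u w) + z c' u w
        rw [h4]
        ring
      rw [h3]
      exact h1
    exact (sub_eq_zero.1 (key _ h2)).symm
  have hcard : h2 U (Fp p) = Nat.card ((Z2 U (Fp p)) ⧸ ((B2 U (Fp p)).addSubgroupOf (Z2 U (Fp p)))) :=
    rfl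
  rw [hcard]
  have hfin2 : Finite ((Z2 U (Fp p)) ⧸ ((B2 U (Fp p)).addSubgroupOf (Z2 U (Fp p)))) := by
    rw [hcard] at hne
    exact Nat.finite_of_card_ne_zero hne
  have h1 := Nat.card_le_card_of_injective Φ hΦ
  rw [Nat.card_fun, Nat.card_zmod, Nat.card_fin] at h1
  exact h1

end Pool.Agent.PP2
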