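import Pool.Agent.helper96.PP2.SpecA

set_option autoImplicit false
set_option linter.style.haveILetI false

namespace Pool.Agent.PP2

open Topology Matrix

theorem INF_lc {G X : Type} [Group G] [TopologicalSpace G] [IsTopologicalGroup G]
    (N : Subgroup G) (hN : IsOpen (N : Set G)) (f : G → X) (hf : ∀ g, ∀ n ∈ N, f (g * n) = f g) :
    IsLocallyConstant f := by
  rw [IsLocallyConstant.iff_exists_open]
  intro g
  refine ⟨(fun n => g * n) '' (N : Set G), ?_, ⟨1, N.one_mem, mul_one g⟩, ?_⟩
  · exact (Homeomorph.mulLeft g).isOpenMap _ hN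
  · rintro _ ⟨n, hn, rfl⟩
    exact hf g n hn

theorem INF_row (hSEC : SEC_stmt) : INF_stmt := by
  intro p U _ _ _ _ F hp hp2 hU f hf
  obtain ⟨hfl, hfc⟩ := hf
  -- normalisation
  set k : Fp p := f 1 1 with hk
  let f0 : U → U → Fp p := fun a b => f a b - k
  have hf0l : LC2 f0 := IsLocallyConstant.comp hfl (fun z : Fp p => z - k)
  have hcoc : ∀ a b c : U, f b c + f a (b * c) = f (a * b) c + f a b := by
    intro a b c
    have h : f b c - f (a * b) c + f a (b * c) - f a b = 0 := hfc a b c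
    have h2 : f b c + f a (b * c) - (f (a * b) c + f a b) = 0 := by rw [← h]; abel
    exact sub_eq_zero.1 h2
  have hcoc0 : ∀ a b c : U, f0 b c + f0 a (b * c) = f0 (a * b) c + f0 a b := by
    intro a b c
    have h := hcoc a b c
    change (f b c - k) + (f a (b * c) - k) = (f (a * b) c - k) + (f a b - k)
    have h1 : (f b c - k) + (f a (b * c) - k) = (f b c + f a (b * c)) - k - k := by abel
    rw [h1, h]
    abel
  have hf0c : ∀ a b c : U, d2 f0 a b c = 0 := by
    intro a b c
    change f0 b c - f0 (a * b) c + f0 a (b * c) - f0 a b = 0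
    have h := hcoc0 a b c
    have h1 : f0 b c - f0 (a * b) c + f0 a (b * c) - f0 a b
        = (f0 b c + f0 a (b * c)) - (f0 (a * b) c + f0 a b) := by abel
    rw [h1, h, sub_self]
  have hf01 : f0 1 1 = 0 := sub_self _
  obtain ⟨σ, hσl, hσ1, hσ2⟩ := hSEC p U F hp hp2 hU f0 ⟨hf0l, hf0c⟩ hf01
  haveI hn1 : (F 1).Normal := hU.nor 1
  -- the section
  let t : U → U := fun x => ((x : U ⧸ F 1).out)
  have ht : ∀ x, (t x)⁻¹ * x ∈ F 1 := by
    intro x
    rw [← QuotientGroup.eq]
    exact Quotient.out_eq' _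
  have htc : ∀ x, ∀ v ∈ F 1, t (x * v) = t x := by
    intro x v hv
    have h : ((x * v : U) : U ⧸ F 1) = (x : U ⧸ F 1) := by
      rw [QuotientGroup.mk_mul_of_mem]
      exact hv
    change ((x * v : U) : U ⧸ F 1).out = (x : U ⧸ F 1).out
    rw [h]
  let w : U → U := fun x => (t x)⁻¹ * x
  have hw : ∀ x, w x ∈ F 1 := ht
  have hwc : ∀ x, ∀ v ∈ F 1, w (x * v) = w x * v := by
    intro x v hv
    change (t (x * v))⁻¹ * (x * v) = (t x)⁻¹ * x * v
    rw [htc x v hv, mul_assoc]
  have htw : ∀ x, t x * w x = x := by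
    intro x
    change t x * ((t x)⁻¹ * x) = x
    rw [mul_inv_cancel_left]
  let b : U → Fp p := fun x => σ (w x) + f0 (t x) (w x)
  have htl : IsLocallyConstant t := INF_lc (F 1) (hU.op 1) t htc
  have hwcont : Continuous w := (htl.continuous.inv).mul continuous_id
  have hbl : IsLocallyConstant b := by
    have h1 : IsLocallyConstant (fun x => σ (w x)) := hσl.comp_continuous hwcont
    have h2 : IsLocallyConstant (fun x => f0 (t x) (w x)) :=
      IsLocallyConstant.comp_continuous hf0l (htl.continuous.prodMk hwcont)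
    exact h1.add h2
  have hb1 : ∀ x, ∀ v ∈ F 1, b (x * v) = b x + σ v + f0 x v := by
    intro x v hv
    change σ (w (x * v)) + f0 (t (x * v)) (w (x * v)) = σ (w x) + f0 (t x) (w x) + σ v + f0 x v
    rw [htc x v hv, hwc x v hv, hσ1 (w x) (hw x) v hv]
    have h := hcoc0 (t x) (w x) v
    rw [htw x] at h
    have h1 : σ (w x) + σ v + f0 (w x) v + f0 (t x) (w x * v)
        = σ (w x) + σ v + (f0 (w x) v + f0 (t x) (w x * v)) := by abel
    rw [h1, h]
    abel
  let f' : U → U → Fp p := fun x y => f0 x y + b x + b y - b (x * y)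
  have hf'l : LC2 f' := by
    have h1 : IsLocallyConstant (fun z : U × U => b z.1) := hbl.comp_continuous continuous_fst
    have h2 : IsLocallyConstant (fun z : U × U => b z.2) := hbl.comp_continuous continuous_snd
    have h3 : IsLocallyConstant (fun z : U × U => b (z.1 * z.2)) :=
      hbl.comp_continuous continuous_mul
    exact ((IsLocallyConstant.add hf0l h1).add h2).sub h3
  have hf'c : ∀ x y z : U, d2 f' x y z = 0 := by
    intro x y z
    change (f0 y z + b y + b z - b (y * z)) - (f0 (x * y) z + b (x * y) + b z - b (x * y * z))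
      + (f0 x (y * z) + b x + b (y * z) - b (x * (y * z)))
      - (f0 x y + b x + b y - b (x * y)) = 0
    have h := hcoc0 x y z
    rw [← mul_assoc]
    have h1 : (f0 y z + b y + b z - b (y * z)) - (f0 (x * y) z + b (x * y) + b z - b (x * y * z))
      + (f0 x (y * z) + b x + b (y * z) - b (x * y * z))
      - (f0 x y + b x + b y - b (x * y)) =
      (f0 y z + f0 x (y * z)) - (f0 (x * y) z + f0 x y) := by abel
    rw [h1, h, sub_self]
  have hr : ∀ x y, ∀ w' ∈ F 1, f' x (y * w') = f' x y := by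
    intro x y w' hw'
    change f0 x (y * w') + b x + b (y * w') - b (x * (y * w')) = f0 x y + b x + b y - b (x * y)
    rw [← mul_assoc, hb1 y w' hw', hb1 (x * y) w' hw']
    have h := hcoc0 x y w'
    have h1 : f0 x (y * w') + b x + (b y + σ w' + f0 y w') - (b (x * y) + σ w' + f0 (x * y) w')
        = (f0 y w' + f0 x (y * w')) + b x + b y - b (x * y) - f0 (x * y) w' := by abel
    rw [h1, h]
    abel
  have hl : ∀ x y, ∀ v ∈ F 1, f' (x * v) y = f' x y := by
    intro x y v hv
    have hv' : y⁻¹ * v * y ∈ F 1 := by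
      have := hn1.conj_mem v hv y⁻¹
      rwa [inv_inv] at this
    change f0 (x * v) y + b (x * v) + b y - b (x * v * y) = f0 x y + b x + b y - b (x * y)
    have h0 : x * v * y = x * y * (y⁻¹ * v * y) := by group
    rw [h0, hb1 x v hv, hb1 (x * y) _ hv']
    have h1 := hcoc0 x v y
    have h2 := hcoc0 x y (y⁻¹ * v * y)
    have h3 : y * (y⁻¹ * v * y) = v * y := by group
    rw [h3] at h2
    have h4 := hσ2 y (y⁻¹ * v * y) hv'
    have h5 : y * (y⁻¹ * v * y) * y⁻¹ = v := by group
    rw [h5] at h4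
    -- h1 : f0 v y + f0 x (v y) = f0 (x v) y + f0 x v
    -- h2 : f0 y v' + f0 x (v y) = f0 (x y) v' + f0 x y
    -- h4 : f0 y v' + σ v' = σ v + f0 v y
    have e1 : f0 (x * v) y + (b x + σ v + f0 x v) + b y - (b (x * y) + σ (y⁻¹ * v * y)
        + f0 (x * y) (y⁻¹ * v * y)) =
        (f0 (x * v) y + f0 x v) + b x + b y - b (x * y) + σ v - σ (y⁻¹ * v * y)
        - (f0 (x * y) (y⁻¹ * v * y) + f0 x y) + f0 x y := by abel
    rw [e1, ← h1, ← h2]
    have e2 : f0 v y + f0 x (v * y) + b x + b y - b (x * y) + σ v - σ (y⁻¹ * v * y)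
        - (f0 y (y⁻¹ * v * y) + f0 x (v * y)) + f0 x y =
        (σ v + f0 v y) - (f0 y (y⁻¹ * v * y) + σ (y⁻¹ * v * y)) + (f0 x y + b x + b y - b (x * y)) := by
      abel
    rw [e2, ← h4, sub_self, zero_add]
  refine ⟨f', ⟨hf'l, hf'c⟩, ?_, ?_⟩
  · -- the coboundary
    refine ⟨fun x => k - b x, (IsLocallyConstant.const k).sub hbl, fun x y => ?_⟩
    change f x y - (f x y - k + b x + b y - b (x * y)) = (k - b y) - (k - b (x * y)) + (k - b x)
    abel
  · intro x y v hv w' hw'
    rw [hl, hr]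
    · exact hw'
    · exact hv

end Pool.Agent.PP2
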